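import Pool.Agent.helper11.OFP.Show

set_option autoImplicit false

/-!
# A part of `E_lo(F)` that is hyperfinite and not smooth

`F` is Thompson's group, `LO F` its space of left orders with the conjugation action `conj`, `Elo F` the orbit relation.

`W` is the set of the left orders such that for every open interval `(a,b)` of `(0,1)` some convex subgroup `C ≠ 1` has a
finite set `fix C` of common fixed points in `(0,1)`, which meets `(a,b)`. It is Borel and invariant and contains the
lexicographic orders of all dense sequences in `(0,1)`, with arbitrary signs. The restriction of `Elo F` to `W` is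
hyperfinite, and it is not smooth.
-/

open MeasureTheory

namespace Pool.Agent.Results.MP_90e158_lc.FiniteFixedPoints

open Pool.Agent.LOF Pool.Agent.OFP.Show

/-- the conjugacy relation of left orders of Thompson's group is hyperfinite and not smooth on the invariant Borel set
`W`, which contains all lexicographic orders of dense sequences -/
theorem result :
    MeasurableSet W ∧ (∀ (r : LO F) (g : F), r ∈ W → conj g r ∈ W) ∧ HyperfiniteOn W (Elo F) ∧
      ¬ SmoothOn W (Elo F) ∧ ∀ (x : ℕ → ℝ) (s : ℕ → Bool), DenseSeq x → ∃ r ∈ W, IsLex r x s :=
  final.1

end Pool.Agent.Results.MP_90e158_lc.FiniteFixedPoints
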