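import Pool.Agent.helper46.LOF.Final

set_option autoImplicit false

/-!
# If `E_lo(F)` is hyperfinite, then Thompson's group `F` is amenable

The conjugation action of Thompson's group `F` on its space of left orders `LO(F)` has an
invariant Borel probability measure `μ` for which it is essentially free. If the restriction of
the conjugacy relation `E_lo(F)` to some `μ`-conull Borel set is hyperfinite, then `F` is
amenable. In particular `F` is amenable if `E_lo(F)` is hyperfinite (the case `Y = LO(F)`).

The orders: for `g ≠ 1` in `F` let `y` be the supremum of the support of `g`, a dyadic point of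
`(0,1]`; near `y`, on the left, `g` moves all points up or all points down. A sign `ε(y)` for each
dyadic point `y` decides which of the two is positive. The measure is the image of the Bernoulli
measure on the signs.
-/

open MeasureTheory

namespace Pool.Agent.Results.MP_90e158_lc.HyperfiniteAmenable

open Pool.Agent.LOF

/-- the conjugation action of `F` on `LO(F)` has an essentially free invariant Borel probability
measure `μ` such that `F` is amenable if the restriction of `E_lo(F)` to some `μ`-conull Borel
set `Y` (for instance, `Y = LO(F)`) is hyperfinite -/
theorem result :
    ∃ μ : Measure (LO F), IsProbabilityMeasure μ ∧ (∀ g : F, μ.map (conj g) = μ) ∧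
      (∀ g : F, g ≠ 1 → μ {r | conj g r = r} = 0) ∧
      ∀ Y : Set (LO F), MeasurableSet Y → μ Yᶜ = 0 → HyperfiniteOn Y (Elo F) → Amenable F := by
  have hcm : ∀ g : F, Measurable (conj g : LO F → LO F) := by
    intro g
    refine Measurable.subtype_mk ?_
    rw [measurable_pi_iff]
    intro p
    exact (measurable_pi_apply _).comp measurable_subtype_coe
  refine ⟨bern.map Phi, Measure.isProbabilityMeasure_map Phi_measurable.aemeasurable, ?_, ?_, ?_⟩
  · intro g
    rw [Measure.map_map (hcm g) Phi_measurable]
    have : (conj g) ∘ Phi = Phi ∘ fun ε : DD → Bool => g • ε := by
      funext ε
      exact (Phi_smul g ε).symm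
    rw [this, ← Measure.map_map Phi_measurable (smul_meas g), bern_inv]
  · intro g hg
    have hm : MeasurableSet {r : LO F | conj g r = r} := by
      have : {r : LO F | conj g r = r} =
          ⋂ p : F × F, {r : LO F | r.1 (p.1 * g, p.2 * g) = r.1 p} := by
        ext r
        simp only [Set.mem_iInter]
        constructor
        · intro h p
          exact congrFun (congrArg Subtype.val h) p
        · intro h
          exact Subtype.ext (funext fun p => h p)
      rw [this]
      refine MeasurableSet.iInter fun p => ?_
      exact measurableSet_eq_fun ((measurable_pi_apply _).comp measurable_subtype_coe)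
        ((measurable_pi_apply _).comp measurable_subtype_coe)
    rw [Measure.map_apply Phi_measurable hm]
    refine measure_mono_null ?_ (bern_free g hg)
    intro ε hε
    have h1 : conj g (Phi ε) = Phi ε := hε
    rw [← Phi_smul] at h1
    exact Phi_injective h1
  · intro Y hY hY0 hyp
    rw [Measure.map_apply Phi_measurable hY.compl] at hY0
    exact amenable_of_pullback smul_meas bern bern_inv bern_free (Elo F) Phi Phi_measurable
      Phi_injective (fun g x => ⟨g, Phi_smul g x⟩) Y hY hY0 hyp.sub

end Pool.Agent.Results.MP_90e158_lc.HyperfiniteAmenable
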