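import Pool.Agent.helper97.IRO.Show

set_option autoImplicit false

/-!
# The invariant measures of `E_lo(F)` and hyperfiniteness

`F` is Thompson's group, `LOF` its space of left orders with the conjugation action `cj`, `E` the
orbit relation.

The conjugation invariant Borel probability measures on `LOF` are exactly the mixtures of the
explicit random orders `lawS t s p`, `lawO t o p`, and the mixing measure is unique. The random
orders for `t = true`: independent signs, each `true` with probability `p`, are put on the dyadic
points of `(0,1)`. For a sign `s`: put `s` on the point `1`; `g ≠ 1` is positive iff near the
supremum of its support it moves the points up or down as told by the sign of that supremum.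
For a left order `o` of `F/F'`: `g` is positive iff its class in `F/F'` is positive, or
`g` is in `F'` and positive as before. `t = false` gives the mirror images under `x ↦ 1 - x`.

If `ν` is one of these measures and `E` is hyperfinite on a Borel set which is not, up to
`ν`-null sets, contained in the set of orders fixed by all conjugations, then `F` is amenable.
-/

open MeasureTheory

namespace Pool.Agent.Results.MP_90e158_lc.InvariantMeasures

open Pool.Agent.LOF Pool.Agent.IRO.Show

/-- the invariant probability measures of the conjugacy relation on left orders of Thompson's
group, and the consequence of hyperfiniteness for each of them -/
theorem result (ν : Measure LOF) [IsProbabilityMeasure ν] :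
    (Invariant ν ↔ ∃ m, Mixture ν m) ∧ (∀ m m', Mixture ν m → Mixture ν m' → m = m') ∧
    (Invariant ν → ∀ Y, MeasurableSet Y → ν (Y \ Fixed) ≠ 0 → HyperfiniteOn Y E → Amenable F) :=
  final5 ν

end Pool.Agent.Results.MP_90e158_lc.InvariantMeasures
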